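import Mathlib

/-!
# The signed length of an interval with respect to a point of the cross polytope

A point `X` with `∑ |X i| = 1` cuts `[0, n]` into consecutive pieces of lengths `n |X i|`, and the
piece number `i` carries the sign of `X i`.  `Ig n m X a b` is the integral of the sign over
`[a, b]`.
-/

set_option autoImplicit false

namespace Run7.h494.Four

open Finset

/-- the number `s` moved into the interval from `a` to `b` -/
noncomputable def cl (a b s : ℝ) : ℝ := max a (min b s)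

theorem cl_mono {a b s t : ℝ} (h : s ≤ t) : cl a b s ≤ cl a b t :=
  max_le_max le_rfl (min_le_min le_rfl h)

theorem cl_le {a b s : ℝ} (hab : a ≤ b) : cl a b s ≤ b :=
  max_le hab (min_le_left _ _)

theorem le_cl {a b s : ℝ} : a ≤ cl a b s := le_max_left _ _

theorem cl_of_le {a b s : ℝ} (h : s ≤ a) : cl a b s = a :=
  max_eq_left ((min_le_right _ _).trans h)

theorem cl_of_ge {a b s : ℝ} (hab : a ≤ b) (h : b ≤ s) : cl a b s = b := by
  unfold cl
  rw [min_eq_left h, max_eq_right hab]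

/-- the start of the piece number `i` -/
noncomputable def St (n : ℝ) (X : ℕ → ℝ) (i : ℕ) : ℝ := n * ∑ l ∈ range i, |X l|

theorem St_succ (n : ℝ) (X : ℕ → ℝ) (i : ℕ) : St n X (i + 1) = St n X i + n * |X i| := by
  unfold St
  rw [sum_range_succ]
  ring

theorem St_mono {n : ℝ} (hn : 0 ≤ n) (X : ℕ → ℝ) : Monotone (St n X) := by
  apply monotone_nat_of_le_succ
  intro i
  rw [St_succ]
  have := mul_nonneg hn (abs_nonneg (X i))
  linarith

theorem St_neg (n : ℝ) (X : ℕ → ℝ) (i : ℕ) : St n (-X) i = St n X i := by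
  unfold St
  simp

/-- the integral of the sign over the part of the interval in the piece number `i` -/
noncomputable def Tm (n : ℝ) (X : ℕ → ℝ) (a b : ℝ) (i : ℕ) : ℝ :=
  cl a b (St n X i + n * max (X i) 0) - cl a b (St n X i + n * max (-X i) 0)

theorem Tm_neg (n : ℝ) (X : ℕ → ℝ) (a b : ℝ) (i : ℕ) : Tm n (-X) a b i = -Tm n X a b i := by
  unfold Tm
  rw [St_neg]
  simp only [Pi.neg_apply, neg_neg, neg_sub]

theorem Tm_of_nonneg {n : ℝ} {X : ℕ → ℝ} {a b : ℝ} {i : ℕ} (h : 0 ≤ X i) :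
    Tm n X a b i = cl a b (St n X (i + 1)) - cl a b (St n X i) := by
  unfold Tm
  rw [St_succ, abs_of_nonneg h, max_eq_left h, max_eq_right (by linarith : -X i ≤ 0), mul_zero,
    add_zero]

theorem abs_Tm_le {n : ℝ} (hn : 0 ≤ n) (X : ℕ → ℝ) (a b : ℝ) (i : ℕ) :
    |Tm n X a b i| ≤ cl a b (St n X (i + 1)) - cl a b (St n X i) := by
  rcases le_total 0 (X i) with h | h
  · rw [Tm_of_nonneg h, abs_of_nonneg]
    exact sub_nonneg.2 (cl_mono (St_mono hn X (Nat.le_succ i)))
  · have h1 : Tm n X a b i = -Tm n (-X) a b i := by rw [Tm_neg, neg_neg]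
    have h2 : 0 ≤ (-X) i := by simpa using h
    rw [h1, abs_neg, Tm_of_nonneg h2, St_neg, St_neg, abs_of_nonneg]
    exact sub_nonneg.2 (cl_mono (St_mono hn X (Nat.le_succ i)))

/-- the integral of the sign over the interval -/
noncomputable def Ig (n : ℝ) (m : ℕ) (X : ℕ → ℝ) (a b : ℝ) : ℝ :=
  ∑ i ∈ range (m + 1), Tm n X a b i

theorem Ig_neg (n : ℝ) (m : ℕ) (X : ℕ → ℝ) (a b : ℝ) : Ig n m (-X) a b = -Ig n m X a b := by
  unfold Ig
  rw [← sum_neg_distrib]
  exact sum_congr rfl (fun i _ => Tm_neg n X a b i)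

theorem abs_Ig_le {n : ℝ} (hn : 0 ≤ n) (m : ℕ) (X : ℕ → ℝ) {a b : ℝ} (hab : a ≤ b) :
    |Ig n m X a b| ≤ b - a := by
  unfold Ig
  refine (abs_sum_le_sum_abs _ _).trans ?_
  refine (sum_le_sum (fun i _ => abs_Tm_le hn X a b i)).trans ?_
  rw [sum_range_sub (fun i => cl a b (St n X i))]
  have h1 := cl_le (s := St n X (m + 1)) hab
  have h2 := le_cl (a := a) (b := b) (s := St n X 0)
  linarith

theorem Ig_inside {n : ℝ} (hn : 0 ≤ n) {m : ℕ} {X : ℕ → ℝ} {a b : ℝ} (hab : a ≤ b) {i : ℕ}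
    (hi : i ≤ m) (h1 : St n X i ≤ a) (h2 : b ≤ St n X (i + 1)) (hX : 0 ≤ X i) :
    Ig n m X a b = b - a := by
  unfold Ig
  rw [sum_eq_single i]
  · rw [Tm_of_nonneg hX, cl_of_ge hab h2, cl_of_le h1]
  · intro j _ hj
    have h3 := abs_Tm_le hn X a b j
    rcases lt_or_gt_of_ne hj with h | h
    · have h4 := St_mono hn X (Nat.succ_le_of_lt h)
      have h5 := St_mono hn X h.le
      rw [cl_of_le (h4.trans h1), cl_of_le (h5.trans h1), sub_self] at h3
      exact abs_nonpos_iff.1 h3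
    · have h4 := St_mono hn X (Nat.succ_le_of_lt h)
      have h5 := St_mono hn X (Nat.succ_le_succ h.le)
      rw [cl_of_ge hab (h2.trans h4), cl_of_ge hab (h2.trans h5), sub_self] at h3
      exact abs_nonpos_iff.1 h3
  · intro h
    exact absurd (mem_range.2 (Nat.lt_succ_of_le hi)) h

/-- the mean of the sign over the interval -/
noncomputable def sg (n : ℝ) (m : ℕ) (X : ℕ → ℝ) (a b : ℝ) : ℝ := Ig n m X a b / (b - a)

theorem sg_neg (n : ℝ) (m : ℕ) (X : ℕ → ℝ) (a b : ℝ) : sg n m (-X) a b = -sg n m X a b := by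
  unfold sg
  rw [Ig_neg, neg_div]

theorem abs_sg_le {n : ℝ} (hn : 0 ≤ n) (m : ℕ) (X : ℕ → ℝ) {a b : ℝ} (hab : a < b) :
    |sg n m X a b| ≤ 1 := by
  unfold sg
  rw [abs_div, abs_of_pos (sub_pos.2 hab), div_le_one (sub_pos.2 hab)]
  exact abs_Ig_le hn m X hab.le

theorem sg_inside {n : ℝ} (hn : 0 ≤ n) {m : ℕ} {X : ℕ → ℝ} {a b : ℝ} (hab : a < b) {i : ℕ}
    (hi : i ≤ m) (h1 : St n X i ≤ a) (h2 : b ≤ St n X (i + 1)) (hX : 0 ≤ X i) :
    sg n m X a b = 1 := by
  unfold sg
  rw [Ig_inside hn hab.le hi h1 h2 hX, div_self (sub_pos.2 hab).ne']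

/-- the mean of `sg` over a window of `B` consecutive gaps of the sequence `a` -/
noncomputable def Mv (B : ℕ) (n : ℝ) (m : ℕ) (X : ℕ → ℝ) (a : ℕ → ℝ) (i : ℕ) : ℝ :=
  (∑ j ∈ range B, sg n m X (a (i + j)) (a (i + j + 1))) / B

theorem Mv_neg (B : ℕ) (n : ℝ) (m : ℕ) (X : ℕ → ℝ) (a : ℕ → ℝ) (i : ℕ) :
    Mv B n m (-X) a i = -Mv B n m X a i := by
  unfold Mv
  rw [← neg_div, ← sum_neg_distrib]
  congr 1
  exact sum_congr rfl (fun j _ => sg_neg n m X _ _)

theorem Mv_congr {B : ℕ} {n : ℝ} {m : ℕ} {X : ℕ → ℝ} {a a' : ℕ → ℝ} {i i' : ℕ}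
    (h : ∀ j ≤ B, a (i + j) = a' (i' + j)) : Mv B n m X a i = Mv B n m X a' i' := by
  unfold Mv
  congr 1
  apply sum_congr rfl
  intro j hj
  have hj' := mem_range.1 hj
  rw [h j hj'.le, add_assoc i j 1, add_assoc i' j 1, h (j + 1) hj']

theorem abs_Mv_sub_le {B : ℕ} (hB : 0 < B) {n : ℝ} (hn : 0 ≤ n) (m : ℕ) (X : ℕ → ℝ) {a : ℕ → ℝ}
    {i : ℕ} (ha : ∀ j ≤ B, a (i + j) < a (i + j + 1)) :
    |Mv B n m X a i - Mv B n m X a (i + 1)| ≤ 2 / B := by
  have hB' : (0 : ℝ) < B := by exact_mod_cast hB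
  let f : ℕ → ℝ := fun j => sg n m X (a (i + j)) (a (i + j + 1))
  have h1 : Mv B n m X a i = (∑ j ∈ range B, f j) / B := rfl
  have h2 : Mv B n m X a (i + 1) = (∑ j ∈ range B, f (j + 1)) / B := by
    unfold Mv
    congr 1
    apply sum_congr rfl
    intro j _
    simp only [f]
    congr 2 <;> omega
  have h3 : ∑ j ∈ range B, f j - ∑ j ∈ range B, f (j + 1) = f 0 - f B := by
    rw [← sum_sub_distrib, sum_range_sub']
  rw [h1, h2, ← sub_div, h3, abs_div, abs_of_pos hB']
  apply div_le_div_of_nonneg_right _ hB'.le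
  have h4 : |f 0| ≤ 1 := abs_sg_le hn m X (ha 0 (Nat.zero_le _))
  have h5 : |f B| ≤ 1 := abs_sg_le hn m X (ha B le_rfl)
  calc |f 0 - f B| ≤ |f 0| + |f B| := abs_sub _ _
    _ ≤ 2 := by linarith

/-- some block of the sequence lies in one piece -/
theorem exists_block {B : ℕ} {n : ℝ} {m : ℕ} {X : ℕ → ℝ} {a : ℕ → ℝ}
    (h0 : 0 ≤ a 0) (h1 : a (B * (m + 1)) ≤ St n X (m + 1)) :
    ∃ l ≤ m, St n X l ≤ a (B * l) ∧ a (B * (l + 1)) ≤ St n X (l + 1) := by
  classical
  have hex : ∃ l, a (B * (l + 1)) ≤ St n X (l + 1) := ⟨m, h1⟩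
  refine ⟨Nat.find hex, Nat.find_min' hex h1, ?_, Nat.find_spec hex⟩
  rcases Nat.eq_zero_or_pos (Nat.find hex) with h | h
  · rw [h]
    simpa [St] using h0
  · have h2 := Nat.find_min hex (m := Nat.find hex - 1) (by omega)
    rw [Nat.sub_add_cancel h] at h2
    exact (not_le.1 h2).le

theorem exists_abs_Mv_eq_one {B : ℕ} (hB : 0 < B) {n : ℝ} (hn : 0 ≤ n) {m : ℕ} {X : ℕ → ℝ}
    {a : ℕ → ℝ} (ha : ∀ j < B * (m + 1), a j < a (j + 1))
    (h0 : 0 ≤ a 0) (h1 : a (B * (m + 1)) ≤ St n X (m + 1)) :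
    ∃ l ≤ m, |Mv B n m X a (B * l)| = 1 := by
  obtain ⟨l, hl, h2, h3⟩ := exists_block h0 h1
  refine ⟨l, hl, ?_⟩
  have hB' : (0 : ℝ) < B := by exact_mod_cast hB
  have hle : B * (l + 1) ≤ B * (m + 1) := Nat.mul_le_mul_left B (by omega)
  -- monotonicity inside the block
  have hmono : ∀ i j, i ≤ j → j ≤ B * (m + 1) → a i ≤ a j := by
    intro i j hij
    induction j, hij using Nat.le_induction with
    | base => intro _; exact le_rfl
    | succ j hj ih =>
      intro hj2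
      exact (ih (by omega)).trans (ha j (by omega)).le
  have key : ∀ Y : ℕ → ℝ, (∀ i, St n Y i = St n X i) → 0 ≤ Y l → Mv B n m Y a (B * l) = 1 := by
    intro Y hY hYl
    unfold Mv
    have : ∀ j ∈ range B, sg n m Y (a (B * l + j)) (a (B * l + j + 1)) = 1 := by
      intro j hj
      have hj' := mem_range.1 hj
      have hmul : B * (l + 1) = B * l + B := by ring
      apply sg_inside hn (ha _ (by omega)) hl
      · rw [hY]
        exact h2.trans (hmono _ _ (by omega) (by omega))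
      · rw [hY]
        refine le_trans (hmono _ _ ?_ hle) h3
        omega
      · exact hYl
    rw [sum_congr rfl this]
    simp [hB'.ne']
  rcases le_total 0 (X l) with h | h
  · rw [key X (fun _ => rfl) h, abs_one]
  · have h4 := key (-X) (fun i => St_neg n X i) (by simpa using h)
    rw [Mv_neg] at h4
    rw [← abs_neg, h4, abs_one]

/-! ### Continuity -/

theorem continuous_cl {α : Type} [TopologicalSpace α] {f : α → ℝ} (hf : Continuous f) (a b : ℝ) :
    Continuous (fun x => cl a b (f x)) := by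
  unfold cl
  fun_prop

theorem continuous_St {α : Type} [TopologicalSpace α] {X : α → ℕ → ℝ}
    (hX : ∀ i, Continuous (fun x => X x i)) (n : ℝ) (i : ℕ) :
    Continuous (fun x => St n (X x) i) := by
  unfold St
  exact continuous_const.mul (continuous_finsetSum _ (fun l _ => (hX l).abs))

theorem continuous_Mv {α : Type} [TopologicalSpace α] {X : α → ℕ → ℝ}
    (hX : ∀ i, Continuous (fun x => X x i)) (B : ℕ) (n : ℝ) (m : ℕ) (a : ℕ → ℝ) (i : ℕ) :
    Continuous (fun x => Mv B n m (X x) a i) := by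
  unfold Mv sg Ig Tm
  refine Continuous.div_const (continuous_finsetSum _ (fun j _ => Continuous.div_const
    (continuous_finsetSum _ (fun l _ => ?_)) _)) _
  apply Continuous.sub
  · apply continuous_cl
    exact (continuous_St hX n l).add (continuous_const.mul ((hX l).max continuous_const))
  · apply continuous_cl
    exact (continuous_St hX n l).add (continuous_const.mul ((hX l).neg.max continuous_const))

end Run7.h494.Four
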