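import Mathlib

/-!
# The map into space given by a slowly varying sequence

For a sequence `M` of reals we define a point of space with the coordinates `M 0`,
`r cos (π φ)`, `r sin (π φ)`, where `r = (1/2 - |M 0|)⁺` and `φ` is the number of steps up to the
first large value of `|M|`, made continuous.
-/

set_option autoImplicit false

namespace Run7.h494.Four

open Finset

/-- the running maximum of `|M|` -/
noncomputable def Nf (M : ℕ → ℝ) : ℕ → ℝ
  | 0 => |M 0|
  | (j + 1) => max (Nf M j) |M (j + 1)|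

theorem Nf_shift (M : ℕ → ℝ) (j : ℕ) :
    Nf M (j + 1) = max |M 0| (Nf (fun i => M (i + 1)) j) := by
  induction j with
  | zero => rfl
  | succ j ih =>
    change max (Nf M (j + 1)) |M (j + 1 + 1)| = _
    rw [ih, max_assoc]
    rfl

theorem Nf_congr {M M' : ℕ → ℝ} (j : ℕ) (h : ∀ i ≤ j, |M i| = |M' i|) : Nf M j = Nf M' j := by
  induction j with
  | zero => exact h 0 le_rfl
  | succ j ih =>
    change max (Nf M j) |M (j + 1)| = max (Nf M' j) |M' (j + 1)|
    rw [ih (fun i hi => h i (by omega)), h (j + 1) le_rfl]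

theorem le_Nf (M : ℕ → ℝ) {i j : ℕ} (h : i ≤ j) : |M i| ≤ Nf M j := by
  induction j with
  | zero =>
    have : i = 0 := by omega
    subst this
    exact le_rfl
  | succ j ih =>
    rcases Nat.lt_or_ge i (j + 1) with h1 | h1
    · exact (ih (by omega)).trans (le_max_left _ _)
    · have : i = j + 1 := by omega
      subst this
      exact le_max_right _ _

/-- the cut-off function -/
noncomputable def ch (s : ℝ) : ℝ := max 0 (min 1 (6 - 8 * s))

theorem ch_one {s : ℝ} (h : s ≤ 5 / 8) : ch s = 1 := by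
  unfold ch
  rw [min_eq_left (by linarith), max_eq_right zero_le_one]

theorem ch_zero {s : ℝ} (h : 3 / 4 ≤ s) : ch s = 0 := by
  unfold ch
  apply max_eq_left
  exact (min_le_right _ _).trans (by linarith)

/-- the smoothed number of steps -/
noncomputable def ph (M : ℕ → ℝ) (L : ℕ) : ℝ := ∑ j ∈ range (L + 1), ch (Nf M j)

theorem ph_congr {M M' : ℕ → ℝ} (L : ℕ) (h : ∀ i ≤ L, |M i| = |M' i|) : ph M L = ph M' L := by
  unfold ph
  apply sum_congr rfl
  intro j hj
  have := mem_range.1 hj
  rw [Nf_congr j (fun i hi => h i (by omega))]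

theorem ph_shift {M : ℕ → ℝ} {L : ℕ} (h0 : |M 0| ≤ 5 / 8)
    (hL : 3 / 4 ≤ Nf (fun i => M (i + 1)) L) :
    ph M L = 1 + ph (fun i => M (i + 1)) L := by
  unfold ph
  rw [sum_range_succ' (fun j => ch (Nf M j)), sum_range_succ (fun j => ch (Nf _ j)), ch_zero hL]
  have h1 : ch (Nf M 0) = 1 := ch_one h0
  rw [h1, add_zero, add_comm]
  congr 1
  apply sum_congr rfl
  intro j _
  rw [Nf_shift]
  rcases le_total |M 0| (Nf (fun i => M (i + 1)) j) with h | h
  · rw [max_eq_right h]
  · rw [max_eq_left h, ch_one h0, ch_one (h.trans h0)]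

/-- the radius -/
noncomputable def rr (M : ℕ → ℝ) : ℝ := max 0 (1 / 2 - |M 0|)

theorem rr_nonneg (M : ℕ → ℝ) : 0 ≤ rr M := le_max_left _ _

theorem abs_rr_sub_le (M M' : ℕ → ℝ) : |rr M - rr M'| ≤ |M 0 + M' 0| := by
  unfold rr
  have h1 := abs_max_sub_max_le_abs (1 / 2 - |M 0|) (1 / 2 - |M' 0|) 0
  rw [max_comm _ (0 : ℝ), max_comm _ (0 : ℝ)] at h1
  refine h1.trans ?_
  have h2 : (1 / 2 - |M 0|) - (1 / 2 - |M' 0|) = |-M' 0| - |M 0| := by
    rw [abs_neg]; ring
  rw [h2]
  refine (abs_abs_sub_abs_le (-M' 0) (M 0)).trans ?_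
  have h3 : -M' 0 - M 0 = -(M 0 + M' 0) := by ring
  rw [h3, abs_neg]

/-- the second coordinate -/
noncomputable def pc (M : ℕ → ℝ) (L : ℕ) : ℝ := rr M * Real.cos (Real.pi * ph M L)

/-- the third coordinate -/
noncomputable def ps (M : ℕ → ℝ) (L : ℕ) : ℝ := rr M * Real.sin (Real.pi * ph M L)

/-- the point of the shifted sequence, with the sign changed, is almost the opposite point -/
theorem rel {M M' : ℕ → ℝ} {L : ℕ} (h : ∀ i ≤ L, M' i = -M (i + 1)) (hL : 3 / 4 ≤ Nf M' L)
    (hd : |M 0 + M' 0| ≤ 1 / 18) :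
    |M 0 + M' 0| + |pc M L + pc M' L| + |ps M L + ps M' L| ≤ 1 / 6 := by
  have hN : ∀ i ≤ L, |M' i| = |(fun i => M (i + 1)) i| := by
    intro i hi
    rw [h i hi, abs_neg]
  rcases le_or_gt |M 0| (5 / 8) with h0 | h0
  · have hph : ph M L = 1 + ph M' L := by
      rw [ph_congr L hN]
      apply ph_shift h0
      rwa [← Nf_congr L hN]
    have hc : pc M L + pc M' L = (rr M' - rr M) * Real.cos (Real.pi * ph M' L) := by
      unfold pc
      rw [hph, mul_add, mul_one, add_comm Real.pi, Real.cos_add_pi]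
      ring
    have hs : ps M L + ps M' L = (rr M' - rr M) * Real.sin (Real.pi * ph M' L) := by
      unfold ps
      rw [hph, mul_add, mul_one, add_comm Real.pi, Real.sin_add_pi]
      ring
    have hr : |rr M' - rr M| ≤ 1 / 18 := by
      rw [abs_sub_comm]
      exact (abs_rr_sub_le M M').trans hd
    rw [hc, hs, abs_mul, abs_mul]
    have h1 := Real.abs_cos_le_one (Real.pi * ph M' L)
    have h2 := Real.abs_sin_le_one (Real.pi * ph M' L)
    have h3 : |rr M' - rr M| * |Real.cos (Real.pi * ph M' L)| ≤ |rr M' - rr M| * 1 :=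
      mul_le_mul_of_nonneg_left h1 (abs_nonneg _)
    have h4 : |rr M' - rr M| * |Real.sin (Real.pi * ph M' L)| ≤ |rr M' - rr M| * 1 :=
      mul_le_mul_of_nonneg_left h2 (abs_nonneg _)
    linarith
  · have h1 : |M 0| ≤ |M 0 + M' 0| + |M' 0| := by
      have := abs_sub (M 0 + M' 0) (M' 0)
      rwa [add_sub_cancel_right] at this
    have hr : rr M = 0 := max_eq_left (by linarith)
    have hr' : rr M' = 0 := max_eq_left (by linarith)
    unfold pc ps
    rw [hr, hr']
    simp only [zero_mul, add_zero, abs_zero]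
    linarith

/-- the point is not close to the origin -/
theorem large (M : ℕ → ℝ) (L : ℕ) : 1 / 6 ≤ |M 0| ∨ 1 / 6 ≤ |pc M L| ∨ 1 / 6 ≤ |ps M L| := by
  by_cases h0 : 1 / 6 ≤ |M 0|
  · exact Or.inl h0
  · right
    push Not at h0
    have hr : 1 / 3 ≤ rr M := by
      refine le_trans ?_ (le_max_right _ _)
      linarith
    unfold pc ps
    rw [abs_mul, abs_mul, abs_of_nonneg (rr_nonneg M)]
    have h1 := Real.sin_sq_add_cos_sq (Real.pi * ph M L)
    have h2 := Real.abs_cos_le_one (Real.pi * ph M L)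
    have h3 := Real.abs_sin_le_one (Real.pi * ph M L)
    rw [← sq_abs (Real.sin _), ← sq_abs (Real.cos _)] at h1
    have h4 := abs_nonneg (Real.cos (Real.pi * ph M L))
    have h5 := abs_nonneg (Real.sin (Real.pi * ph M L))
    by_contra hcon
    push Not at hcon
    obtain ⟨h6, h7⟩ := hcon
    have h8 : |Real.cos (Real.pi * ph M L)| < 1 / 2 := by
      by_contra h9
      push Not at h9
      nlinarith
    have h9 : |Real.sin (Real.pi * ph M L)| < 1 / 2 := by
      by_contra h9
      push Not at h9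
      nlinarith
    nlinarith

/-- the four linear forms -/
def lin : Fin 4 → ℝ → ℝ → ℝ → ℝ
  | 0, a, b, c => a + b + c
  | 1, a, b, c => a - b - c
  | 2, a, b, c => -a + b - c
  | 3, a, b, c => -a - b + c

theorem exists_lin {a b c : ℝ} (h : 1 / 6 ≤ |a| ∨ 1 / 6 ≤ |b| ∨ 1 / 6 ≤ |c|) :
    ∃ i, 1 / 6 ≤ lin i a b c := by
  by_contra hcon
  push Not at hcon
  have h0 := hcon 0
  have h1 := hcon 1
  have h2 := hcon 2
  have h3 := hcon 3
  simp only [lin] at h0 h1 h2 h3
  rcases h with h | h | h
  · rcases le_abs.1 h with h | h <;> linarith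
  · rcases le_abs.1 h with h | h <;> linarith
  · rcases le_abs.1 h with h | h <;> linarith

theorem lin_le (i : Fin 4) (a b c : ℝ) : lin i a b c ≤ |a| + |b| + |c| := by
  have ha := le_abs_self a
  have hb := le_abs_self b
  have hc := le_abs_self c
  have ha' := neg_abs_le a
  have hb' := neg_abs_le b
  have hc' := neg_abs_le c
  fin_cases i <;> simp only [lin] <;> linarith

theorem lin_add (i : Fin 4) (a b c a' b' c' : ℝ) :
    lin i (a + a') (b + b') (c + c') = lin i a b c + lin i a' b' c' := by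
  fin_cases i <;> simp only [lin] <;> ring

/-- two points with a common large form are far from being opposite -/
theorem far {i : Fin 4} {a b c a' b' c' : ℝ} (h : 1 / 6 ≤ lin i a b c)
    (h' : 1 / 6 ≤ lin i a' b' c') : 1 / 3 ≤ |a + a'| + |b + b'| + |c + c'| := by
  refine le_trans ?_ (lin_le i _ _ _)
  rw [lin_add]
  linarith

/-! ### Continuity -/

theorem continuous_Nf {α : Type} [TopologicalSpace α] {M : α → ℕ → ℝ}
    (hM : ∀ i, Continuous (fun x => M x i)) (j : ℕ) : Continuous (fun x => Nf (M x) j) := by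
  induction j with
  | zero => exact (hM 0).abs
  | succ j ih => exact ih.max (hM (j + 1)).abs

theorem continuous_ph {α : Type} [TopologicalSpace α] {M : α → ℕ → ℝ}
    (hM : ∀ i, Continuous (fun x => M x i)) (L : ℕ) : Continuous (fun x => ph (M x) L) := by
  unfold ph
  refine continuous_finsetSum _ (fun j _ => ?_)
  have := continuous_Nf hM j
  unfold ch
  fun_prop

theorem continuous_rr {α : Type} [TopologicalSpace α] {M : α → ℕ → ℝ}
    (hM : ∀ i, Continuous (fun x => M x i)) : Continuous (fun x => rr (M x)) := by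
  unfold rr
  exact continuous_const.max (continuous_const.sub (hM 0).abs)

theorem continuous_pc {α : Type} [TopologicalSpace α] {M : α → ℕ → ℝ}
    (hM : ∀ i, Continuous (fun x => M x i)) (L : ℕ) : Continuous (fun x => pc (M x) L) :=
  (continuous_rr hM).mul (Real.continuous_cos.comp (continuous_const.mul (continuous_ph hM L)))

theorem continuous_ps {α : Type} [TopologicalSpace α] {M : α → ℕ → ℝ}
    (hM : ∀ i, Continuous (fun x => M x i)) (L : ℕ) : Continuous (fun x => ps (M x) L) :=
  (continuous_rr hM).mul (Real.continuous_sin.comp (continuous_const.mul (continuous_ph hM L)))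

end Run7.h494.Four
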