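import Pool.Agent.Run7.h494.Four.Shift
import Pool.Agent.Run7.h494.Four.Cut
import Pool.Agent.Run7.h494.Four.Psi
import Pool.Agent.Run7.h494.Net

/-!
# Products of chromatic number at most four

The product of an iterated shift graph with a graph of nearly antipodal points has a colouring
with four colours, while both factors have large chromatic number.
-/

set_option autoImplicit false

namespace Run7.h494.Four

open SimpleGraph Pool.Agent.Helper325.BorsukUlam

/-- a tuple as a sequence of reals -/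
def ex {m : ℕ} (x : Fin (m + 1) → ℝ) (i : ℕ) : ℝ := if h : i < m + 1 then x ⟨i, h⟩ else 0

theorem ex_neg {m : ℕ} (x : Fin (m + 1) → ℝ) : ex (-x) = -ex x := by
  funext i
  unfold ex
  simp only [Pi.neg_apply]
  split_ifs <;> simp

theorem continuous_ex {m : ℕ} (i : ℕ) : Continuous (fun x : Fin (m + 1) → ℝ => ex x i) := by
  unfold ex
  split_ifs
  · exact continuous_apply _
  · exact continuous_const

theorem St_ex {m : ℕ} {x : Fin (m + 1) → ℝ} (hx : x ∈ K m) (n : ℝ) :
    St n (ex x) (m + 1) = n := by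
  unfold St
  have h1 : ∑ l ∈ Finset.range (m + 1), |ex x l| = ∑ i : Fin (m + 1), |x i| := by
    rw [Finset.sum_range]
    apply Finset.sum_congr rfl
    intro i _
    unfold ex
    rw [dif_pos i.isLt]
  have h2 : ∑ i, |x i| = 1 := hx
  rw [h1, h2, mul_one]

/-- a tuple of elements of `Fin n` as a sequence of reals -/
noncomputable def sq {s n : ℕ} (v : Fin (s + 1) → Fin n) (j : ℕ) : ℝ :=
  if h : j < s + 1 then ((v ⟨j, h⟩ : ℕ) : ℝ) else 0

theorem sq_init {s n : ℕ} (u : Fin (s + 2) → Fin n) {j : ℕ} (hj : j ≤ s) :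
    sq (Fin.init u) j = sq u j := by
  unfold sq
  rw [dif_pos (by omega), dif_pos (by omega)]
  rfl

theorem sq_tail {s n : ℕ} (u : Fin (s + 2) → Fin n) {j : ℕ} (hj : j ≤ s) :
    sq (Fin.tail u) j = sq u (j + 1) := by
  unfold sq
  rw [dif_pos (by omega), dif_pos (by omega)]
  rfl

theorem sq_lt {s n : ℕ} {u : Fin (s + 1) → Fin n} (hu : StrictMono u) {j : ℕ} (hj : j < s) :
    sq u j < sq u (j + 1) := by
  unfold sq
  rw [dif_pos (by omega), dif_pos (by omega)]
  have h1 : u ⟨j, by omega⟩ < u ⟨j + 1, by omega⟩ := hu (by simp)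
  exact_mod_cast h1

theorem sq_nonneg' {s n : ℕ} (u : Fin (s + 1) → Fin n) (j : ℕ) : 0 ≤ sq u j := by
  unfold sq
  split_ifs
  · exact Nat.cast_nonneg _
  · exact le_rfl

theorem sq_le {s n : ℕ} (u : Fin (s + 1) → Fin n) (j : ℕ) : sq u j ≤ n := by
  unfold sq
  split_ifs with h
  · have := (u ⟨j, h⟩).isLt
    exact_mod_cast this.le
  · exact Nat.cast_nonneg _

/-- the sequence of the window means -/
noncomputable def Mx {s n m : ℕ} (v : Fin (s + 1) → Fin n) (x : Fin (m + 1) → ℝ) (i : ℕ) : ℝ :=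
  Mv 36 n m (ex x) (sq v) i

theorem continuous_Mx {s n m : ℕ} (v : Fin (s + 1) → Fin n) (i : ℕ) :
    Continuous (fun x : Fin (m + 1) → ℝ => Mx v x i) :=
  continuous_Mv continuous_ex 36 n m (sq v) i

/-- The relation between the two ends of an arc. -/
theorem key {n m : ℕ} {u : Fin (36 * (m + 1) + 2) → Fin n} (hu : StrictMono u)
    {x : Fin (m + 1) → ℝ} (hx : x ∈ K m) :
    |Mx (Fin.init u) x 0 + Mx (Fin.tail u) (-x) 0| +
      |pc (Mx (Fin.init u) x) (36 * m) + pc (Mx (Fin.tail u) (-x)) (36 * m)| +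
      |ps (Mx (Fin.init u) x) (36 * m) + ps (Mx (Fin.tail u) (-x)) (36 * m)| ≤ 1 / 6 := by
  have hinit : ∀ i ≤ 36 * m, Mx (Fin.init u) x i = Mx u x i := by
    intro i hi
    apply Mv_congr
    intro j hj
    exact sq_init u (by omega)
  have hph : ph (Mx (Fin.init u) x) (36 * m) = ph (Mx u x) (36 * m) :=
    ph_congr _ (fun i hi => by rw [hinit i hi])
  have hrr : rr (Mx (Fin.init u) x) = rr (Mx u x) := by
    unfold rr
    rw [hinit 0 (Nat.zero_le _)]
  have hpc : pc (Mx (Fin.init u) x) (36 * m) = pc (Mx u x) (36 * m) := by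
    unfold pc
    rw [hph, hrr]
  have hps : ps (Mx (Fin.init u) x) (36 * m) = ps (Mx u x) (36 * m) := by
    unfold ps
    rw [hph, hrr]
  rw [hpc, hps, hinit 0 (Nat.zero_le _)]
  have htail : ∀ i ≤ 36 * m, Mx (Fin.tail u) (-x) i = -Mx u x (i + 1) := by
    intro i hi
    unfold Mx
    rw [ex_neg, Mv_neg]
    congr 1
    apply Mv_congr
    intro j hj
    rw [sq_tail u (by omega)]
    congr 1
    omega
  apply rel htail
  · obtain ⟨l, hl, h1⟩ := exists_abs_Mv_eq_one (B := 36) (n := (n : ℝ)) (m := m) (X := ex (-x))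
      (a := sq (Fin.tail u)) (by norm_num) (Nat.cast_nonneg _) (by
        intro j hj
        rw [sq_tail u (by omega), sq_tail u (by omega)]
        exact sq_lt hu (by omega)) (sq_nonneg' _ _) (by
        rw [St_ex (neg_mem_K hx)]
        exact sq_le _ _)
    have h2 : |Mx (Fin.tail u) (-x) (36 * l)| ≤ Nf (Mx (Fin.tail u) (-x)) (36 * m) :=
      le_Nf _ (Nat.mul_le_mul_left 36 hl)
    have h3 : |Mx (Fin.tail u) (-x) (36 * l)| = 1 := h1
    linarith
  · rw [htail 0 (Nat.zero_le _), ← sub_eq_add_neg]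
    have h1 : |Mx u x 0 - Mx u x (0 + 1)| ≤ 2 / ((36 : ℕ) : ℝ) := by
      apply abs_Mv_sub_le (by norm_num) (Nat.cast_nonneg _)
      intro j hj
      exact sq_lt hu (by omega)
    refine h1.trans ?_
    norm_num

theorem pair_four (N : ℕ) : Pair N 4 := by
  classical
  obtain ⟨n, hn⟩ := exists_not_colorable (36 * (N + 1)) N
  -- the map into space
  let Φ : (Fin (N + 1) → ℝ) → (Fin (36 * (N + 1) + 1) → Fin n) → ℝ × ℝ × ℝ := fun x v =>
    (Mx v x 0, pc (Mx v x) (36 * N), ps (Mx v x) (36 * N))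
  have hΦ : Continuous Φ := by
    apply continuous_pi
    intro v
    exact (continuous_Mx v 0).prodMk ((continuous_pc (continuous_Mx v) _).prodMk
      (continuous_ps (continuous_Mx v) _))
  have huc := (isCompact_K N).uniformContinuousOn_of_continuous hΦ.continuousOn
  rw [Metric.uniformContinuousOn_iff] at huc
  obtain ⟨δ', hδ', huc⟩ := huc (1 / 20) (by norm_num)
  let δ : ℝ := min δ' (1 / (2 * ((N : ℝ) + 1)))
  have hδ : 0 < δ := lt_min hδ' (by positivity)
  have hδ1 : δ < 1 / ((N : ℝ) + 1) := by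
    refine lt_of_le_of_lt (min_le_right _ _) ?_
    apply one_div_lt_one_div_of_lt (by positivity)
    have h1 : (0 : ℝ) < (N : ℝ) + 1 := by positivity
    linarith
  obtain ⟨T, hTK, hTf, hcov⟩ := (isCompact_K N).finite_cover_balls (e := δ / 4) (by positivity)
  have hcov' : ∀ x ∈ K N, ∃ p ∈ T, dist x p < δ / 4 := by
    intro x hx
    have := hcov hx
    simp only [Set.mem_iUnion, Metric.mem_ball, exists_prop] at this
    exact this
  have := hTf.fintype
  have hH := not_colorable_anti T hTK δ hδ hδ1 hcov'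
  -- the colouring
  have hcol : ∀ (v : Fin (36 * (N + 1) + 1) → Fin n) (x : Fin (N + 1) → ℝ), ∃ i : Fin 4,
      1 / 6 ≤ lin i (Φ x v).1 (Φ x v).2.1 (Φ x v).2.2 := fun v x => exists_lin (large (Mx v x) (36 * N))
  choose c hc using hcol
  have main : ∀ (u : Fin (36 * (N + 1) + 2) → Fin n) (x y : T), StrictMono u →
      (∀ j, |x.1 j + y.1 j| < δ) → c (Fin.init u) x.1 ≠ c (Fin.tail u) y.1 := by
    intro u x y hu hxy heq
    have h1 := hc (Fin.init u) x.1
    have h2 := hc (Fin.tail u) y.1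
    rw [← heq] at h2
    have h3 := far h1 h2
    have h4 := key hu (hTK x.2)
    have hdist : dist (-x.1) y.1 < δ' := by
      refine lt_of_lt_of_le ?_ (min_le_left δ' (1 / (2 * ((N : ℝ) + 1))))
      rw [dist_pi_lt_iff hδ]
      intro j
      rw [Real.dist_eq, Pi.neg_apply, ← abs_neg]
      have h5 := hxy j
      have h6 : -(-x.1 j - y.1 j) = x.1 j + y.1 j := by ring
      rw [h6]
      exact h5
    have h5 := huc (-x.1) (neg_mem_K (hTK x.2)) y.1 (hTK y.2) hdist
    have h6 := lt_of_le_of_lt (dist_le_pi_dist (Φ (-x.1)) (Φ y.1) (Fin.tail u)) h5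
    rw [Prod.dist_eq, max_lt_iff, Prod.dist_eq, max_lt_iff] at h6
    obtain ⟨h7, h8, h9⟩ := h6
    rw [Real.dist_eq] at h7 h8 h9
    -- the triangle inequalities
    have tri : ∀ p q q' : ℝ, |p + q| ≤ |p + q'| + |q' - q| := by
      intro p q q'
      have := abs_sub (p + q') (q' - q)
      have h10 : p + q' - (q' - q) = p + q := by ring
      rwa [h10] at this
    have t1 := tri (Φ x.1 (Fin.init u)).1 (Φ y.1 (Fin.tail u)).1 (Φ (-x.1) (Fin.tail u)).1
    have t2 := tri (Φ x.1 (Fin.init u)).2.1 (Φ y.1 (Fin.tail u)).2.1 (Φ (-x.1) (Fin.tail u)).2.1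
    have t3 := tri (Φ x.1 (Fin.init u)).2.2 (Φ y.1 (Fin.tail u)).2.2 (Φ (-x.1) (Fin.tail u)).2.2
    have h4' : |(Φ x.1 (Fin.init u)).1 + (Φ (-x.1) (Fin.tail u)).1| +
        |(Φ x.1 (Fin.init u)).2.1 + (Φ (-x.1) (Fin.tail u)).2.1| +
        |(Φ x.1 (Fin.init u)).2.2 + (Φ (-x.1) (Fin.tail u)).2.2| ≤ 1 / 6 := h4
    linarith
  refine ⟨Fin (36 * (N + 1) + 1) → Fin n, T, inferInstance, inferInstance,
    shiftG (36 * (N + 1)) n, antiG T δ, ?_, ?_, ?_⟩
  · refine le_trans ?_ (le_chrom_of_not hn)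
    exact_mod_cast Nat.le_succ N
  · refine le_trans ?_ (le_chrom_of_not hH)
    exact_mod_cast (by omega : N ≤ N + 1 + 1)
  · refine ⟨Coloring.mk (fun p => c p.1 p.2.1) ?_⟩
    intro p q hpq
    rw [tprod_adj] at hpq
    obtain ⟨hG, hHadj⟩ := hpq
    obtain ⟨u, hu, ⟨h1, h2⟩ | ⟨h1, h2⟩⟩ := shiftG_adj hG
    · rw [h1, h2]
      exact main u p.2 q.2 hu hHadj.2
    · rw [h1, h2]
      exact (main u q.2 p.2 hu hHadj.symm.2).symm

theorem polRod_le_four (n : ℕ) : polRod n ≤ 4 := (polRod_le_iff n 4).2 (pair_four n)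

end Run7.h494.Four
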