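import Pool.Agent.Run7.h494.Dich

/-!
# Iterated shift graphs have large chromatic number
-/

set_option autoImplicit false

namespace Run7.h494.Four

/-- A proper colouring of the `r`-th shift digraph on `Fin n` with colours in `K`. -/
def Good (r n : ℕ) (K : Type) : Prop :=
  ∃ c : (Fin (r + 1) → Fin n) → K, ∀ u : Fin (r + 2) → Fin n, StrictMono u →
    c (Fin.init u) ≠ c (Fin.tail u)

theorem snoc_strictMono {r n : ℕ} {u : Fin (r + 1) → Fin n} {b : Fin n} (hu : StrictMono u)
    (hb : u (Fin.last r) < b) : StrictMono (Fin.snoc (α := fun _ => Fin n) u b) := by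
  intro i j hij
  induction j using Fin.lastCases with
  | last =>
    induction i using Fin.lastCases with
    | last => exact absurd hij (lt_irrefl _)
    | cast i =>
      rw [Fin.snoc_last, Fin.snoc_castSucc]
      exact lt_of_le_of_lt (hu.monotone (Fin.le_last i)) hb
  | cast j =>
    induction i using Fin.lastCases with
    | last => exact absurd hij (not_lt.2 (Fin.le_last _))
    | cast i =>
      rw [Fin.snoc_castSucc, Fin.snoc_castSucc]
      exact hu (by simpa using hij)

theorem good_step {r n : ℕ} {K : Type} (h : Good (r + 1) n K) : Good r n (Set K) := by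
  obtain ⟨c, hc⟩ := h
  refine ⟨fun v => {k | ∃ b, StrictMono (Fin.snoc (α := fun _ => Fin n) v b) ∧
    c (Fin.snoc (α := fun _ => Fin n) v b) = k}, ?_⟩
  intro u hu heq
  have h1 : c u ∈ {k | ∃ b, StrictMono (Fin.snoc (α := fun _ => Fin n) (Fin.init u) b) ∧
      c (Fin.snoc (α := fun _ => Fin n) (Fin.init u) b) = k} := by
    refine ⟨u (Fin.last _), ?_, ?_⟩
    · rw [Fin.snoc_init_self]; exact hu
    · rw [Fin.snoc_init_self]
  simp only at heq
  rw [heq] at h1
  obtain ⟨b, hb1, hb2⟩ := h1
  have hb3 : u (Fin.last _) < b := by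
    have := hb1 (Fin.castSucc_lt_last (Fin.last r))
    rw [Fin.snoc_castSucc, Fin.snoc_last] at this
    simpa [Fin.tail] using this
  have h2 := hc (Fin.snoc (α := fun _ => Fin n) u b) (snoc_strictMono hu hb3)
  rw [Fin.init_snoc] at h2
  apply h2
  rw [← hb2]
  congr 1
  funext j
  induction j using Fin.lastCases with
  | last =>
    rw [Fin.snoc_last]
    change b = Fin.snoc (α := fun _ => Fin n) u b (Fin.last (r + 1)).succ
    rw [Fin.succ_last, Fin.snoc_last]
  | cast j =>
    rw [Fin.snoc_castSucc]
    change u j.succ = Fin.snoc (α := fun _ => Fin n) u b j.castSucc.succ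
    rw [← Fin.castSucc_succ, Fin.snoc_castSucc]

theorem good_bound (r : ℕ) : ∀ (K : Type) [Finite K], ∃ N, ∀ n, Good r n K → n ≤ N := by
  induction r with
  | zero =>
    intro K _
    refine ⟨Nat.card K, ?_⟩
    rintro n ⟨c, hc⟩
    have hinj : Function.Injective (fun a : Fin n => c (fun _ => a)) := by
      intro a b hab
      by_contra hne
      wlog hlt : a < b generalizing a b
      · exact this hab.symm (fun h => hne h.symm) (lt_of_le_of_ne (not_lt.1 hlt) (Ne.symm hne))
      apply hc ![a, b] ?_
      · convert hab using 2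
        · funext j
          have hj : j = 0 := Fin.eq_zero j
          subst hj
          rfl
        · funext j
          have hj : j = 0 := Fin.eq_zero j
          subst hj
          rfl
      · intro i j hij
        fin_cases i <;> fin_cases j <;> simp_all
    have := Nat.card_le_card_of_injective _ hinj
    simpa using this
  | succ r ih =>
    intro K _
    obtain ⟨N, hN⟩ := ih (Set K)
    exact ⟨N, fun n hn => hN n (good_step hn)⟩

/-- The iterated shift graph. -/
def shiftG (r n : ℕ) : SimpleGraph (Fin (r + 1) → Fin n) :=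
  SimpleGraph.fromRel (fun v w => ∃ u : Fin (r + 2) → Fin n, StrictMono u ∧
    v = Fin.init u ∧ w = Fin.tail u)

theorem shiftG_adj {r n : ℕ} {v w : Fin (r + 1) → Fin n} (h : (shiftG r n).Adj v w) :
    ∃ u : Fin (r + 2) → Fin n, StrictMono u ∧
      ((v = Fin.init u ∧ w = Fin.tail u) ∨ (w = Fin.init u ∧ v = Fin.tail u)) := by
  unfold shiftG at h
  rw [SimpleGraph.fromRel_adj] at h
  rcases h.2 with ⟨u, hu, h1, h2⟩ | ⟨u, hu, h1, h2⟩
  · exact ⟨u, hu, Or.inl ⟨h1, h2⟩⟩
  · exact ⟨u, hu, Or.inr ⟨h1, h2⟩⟩

theorem exists_not_colorable (r k : ℕ) : ∃ n, ¬ (shiftG r n).Colorable k := by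
  obtain ⟨N, hN⟩ := good_bound r (Fin k)
  refine ⟨N + 1, ?_⟩
  rintro ⟨C⟩
  have hgood : Good r (N + 1) (Fin k) := by
    refine ⟨C, ?_⟩
    intro u hu
    apply C.valid
    unfold shiftG
    rw [SimpleGraph.fromRel_adj]
    refine ⟨?_, Or.inl ⟨u, hu, rfl, rfl⟩⟩
    intro heq
    have h1 := congrFun heq 0
    change u (Fin.castSucc 0) = u (Fin.succ 0) at h1
    have h2 := hu (Fin.castSucc_lt_succ (i := (0 : Fin (r + 1))))
    rw [h1] at h2
    exact lt_irrefl _ h2
  have := hN _ hgood
  omega

end Run7.h494.Four
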